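import Pool.Agent.R378.VD2
import Pool.Agent.Results.MP_4a7640_nt.DilatedTuples

/-! Furstenberg systems of aperiodic multiplicative functions with values `1` and `-1`: correlations with
exponentials whose frequencies lie in a closed set and depend on the point are bounded by the measure of the set. -/

set_option autoImplicit false

open Finset MeasureTheory Filter Topology

namespace Pool.Agent.Results.MP_4a7640_nt.AbsolutelyContinuousFrequencies

open Pool.Agent.Results.MP_4a7640_nt.DilatedTuples (Val shift seq IsFurstenbergSystem IsMult Aperiodic val_le)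
open Pool.Agent.R378.VD (dominate)

/-- the space of two-sided sequences with values `-1`, `0`, `1` -/
abbrev Sq : Type := Pool.Agent.Results.MP_4a7640_nt.DilatedTuples.X

/-- the supremum over the frequencies `α ∈ K` of `|∑_{0 ≤ h < H} x(h) e(hα)|` -/
noncomputable def freqSup (K : Set UnitAddCircle) (H : ℕ) (x : Sq) : ℝ :=
  ⨆ α : K, ‖∑ h ∈ range H, ((x h : ℝ) : ℂ) * fourier (h : ℤ) (α : UnitAddCircle)‖

/-- `u` is a relative eigenfunction, bounded by one, with the eigenvalue `e(φ(x))` at the point `x`: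
`φ(Tx) = φ(x)` and `u(Tx) = e(φ(x)) u(x)` almost everywhere -/
def RelativeEigenfunction (μ : Measure Sq) (φ : Sq → UnitAddCircle) (u : Sq → ℂ) : Prop :=
  Measurable φ ∧ Measurable u ∧ (∀ x, ‖u x‖ ≤ 1) ∧
    ∀ᵐ x ∂μ, φ (shift 1 x) = φ x ∧ u (shift 1 x) = fourier 1 (φ x) * u x

lemma shift_iter (n : ℕ) (x : Sq) : (shift 1)^[n] x = shift (n : ℤ) x := by
  induction n with
  | zero =>
    funext k
    simp [shift]
  | succ n ih =>
    rw [Function.iterate_succ_apply', ih]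
    funext k
    unfold shift
    congr 1
    push_cast
    ring

lemma shift_cont (n : ℤ) : Continuous (shift n) := by
  unfold shift
  exact continuous_pi fun k => continuous_apply (k + n)

/-- Furstenberg systems are invariant under the shift -/
lemma mp_shift {f : ℕ → Val} {μ : Measure Sq} (hμ : IsFurstenbergSystem f μ) : MeasurePreserving (shift 1) μ μ := by
  obtain ⟨hprob, N, hN, hlim⟩ := hμ
  refine ⟨(shift_cont 1).measurable, ?_⟩
  have : IsProbabilityMeasure (Measure.map (shift 1) μ) := Measure.isProbabilityMeasure_map (shift_cont 1).measurable.aemeasurable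
  apply ext_of_forall_integral_eq_of_IsFiniteMeasure
  intro φ
  rw [integral_map (shift_cont 1).measurable.aemeasurable φ.continuous.aestronglyMeasurable]
  set C : ℝ := ‖φ‖ + 1 with hC
  have hC0 : 0 < C := by positivity
  set ψ : Sq → ℝ := fun x => φ x / C with hψ
  have hψc : Continuous ψ := φ.continuous.div_const C
  have hψ1 : ∀ x, |ψ x| ≤ 1 := by
    intro x
    rw [hψ]
    simp only
    rw [abs_div, abs_of_pos hC0, div_le_one hC0]
    have := φ.norm_coe_le_norm x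
    rw [Real.norm_eq_abs] at this
    linarith
  have h1 := Pool.Agent.Results.MP_4a7640_nt.DilatedTuples.mean_int hN hlim ψ hψc hψ1
  have h2 := Pool.Agent.Results.MP_4a7640_nt.DilatedTuples.mean_int hN hlim (fun x => ψ (shift 1 x)) (hψc.comp (shift_cont 1))
    (fun x => hψ1 _)
  have hb : Pool.Agent.Y956.CB.BC (fun n : ℕ => ((ψ (shift (n : ℤ) (seq f)) : ℝ) : ℂ)) :=
    ⟨1, fun n => by rw [Complex.norm_real, Real.norm_eq_abs]; exact hψ1 _⟩
  have h3 := Pool.Agent.Y956.CM.mc_shift (Pool.Agent.Y956.CB.eeLM (Pool.Agent.Y956.CM.lmLM (Pool.Agent.Y956.CM.usq N)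
      (Pool.Agent.Y956.CM.usq_le hN))) hb 1
  have h4 : (fun n : ℕ => ((ψ (shift 1 (shift (n : ℤ) (seq f))) : ℝ) : ℂ)) =
      fun n : ℕ => ((ψ (shift ((n + 1 : ℕ) : ℤ) (seq f)) : ℝ) : ℂ) := by
    funext n
    have h5 : shift 1 (shift (n : ℤ) (seq f)) = shift ((n + 1 : ℕ) : ℤ) (seq f) := by
      funext k
      unfold shift
      congr 1
      push_cast
      ring
    rw [h5]
  rw [h4] at h2
  have h6 : ((∫ x, ψ (shift 1 x) ∂μ : ℝ) : ℂ) = ((∫ x, ψ x ∂μ : ℝ) : ℂ) := by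
    rw [← h1, ← h2]
    exact h3
  have h7 : ∫ x, ψ (shift 1 x) ∂μ = ∫ x, ψ x ∂μ := by exact_mod_cast h6
  simp only [hψ] at h7
  rw [integral_div, integral_div] at h7
  field_simp at h7
  exact h7

lemma mp_shift' {f : ℕ → Val} {μ : Measure Sq} (hμ : IsFurstenbergSystem f μ) (n : ℕ) :
    MeasurePreserving (shift (n : ℤ)) μ μ := by
  have h := (mp_shift hμ).iterate n
  have e : (shift 1)^[n] = shift (n : ℤ) := funext (shift_iter n)
  rwa [e] at h

lemma int_shift {f : ℕ → Val} {μ : Measure Sq} (hμ : IsFurstenbergSystem f μ) (n : ℕ) {F : Sq → ℂ}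
    (hF : Measurable F) : ∫ x, F (shift (n : ℤ) x) ∂μ = ∫ x, F x ∂μ := by
  have h := mp_shift' hμ n
  conv_rhs => rw [← h.map_eq]
  rw [integral_map h.measurable.aemeasurable hF.aestronglyMeasurable]

lemma coord_meas (a : ℤ) : Measurable fun x : Sq => (x a : ℝ) :=
  measurable_subtype_coe.comp (measurable_pi_apply a)

lemma pair_meas (a b : ℤ) : Measurable fun x : Sq => (x a : ℝ) * (x b : ℝ) := (coord_meas a).mul (coord_meas b)

lemma pair_le (a b : ℤ) (x : Sq) : |(x a : ℝ) * (x b : ℝ)| ≤ 1 := by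
  rw [abs_mul]
  exact mul_le_one₀ (val_le _) (abs_nonneg _) (val_le _)

lemma pair_shift {f : ℕ → Val} {μ : Measure Sq} (hμ : IsFurstenbergSystem f μ) (n : ℕ) (a b : ℤ) :
    ∫ x : Sq, (x (a + n) : ℝ) * (x (b + n) : ℝ) ∂μ = ∫ x : Sq, (x a : ℝ) * (x b : ℝ) ∂μ := by
  have h := mp_shift' hμ n
  conv_rhs => rw [← h.map_eq]
  rw [integral_map h.measurable.aemeasurable (pair_meas a b).aestronglyMeasurable]
  rfl

/-- the two-point correlations vanish -/
lemma two_point {f : ℕ → Val} (hf : IsMult f) (ha : Aperiodic f) {μ : Measure Sq} (hμ : IsFurstenbergSystem f μ)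
    (t : ℕ) (ht : 1 ≤ t) : ∫ x : Sq, (x (t : ℤ) : ℝ) * (x 0 : ℝ) ∂μ = 0 := by
  by_contra hcon
  set s : ℝ := |∫ x : Sq, (x (t : ℤ) : ℝ) * (x 0 : ℝ) ∂μ| with hs
  have hs0 : 0 < s := abs_pos.2 hcon
  set ε : ℝ := min s (1 / 2) with hε
  have hε0 : 0 < ε := lt_min hs0 (by norm_num)
  obtain ⟨C, H₀, h1⟩ := Pool.Agent.Results.MP_4a7640_nt.DilatedTuples.result 1 ε hε0
  set H : ℕ := H₀ + 1 with hH
  set S : Finset (ℕ × ℤ) := (Icc 1 H).image (fun d : ℕ => (d, ((d : ℤ) + t))) with hS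
  have hcard : S.card = H := by
    rw [hS, card_image_of_injective _ (fun a b h => by
      have := congrArg Prod.fst h
      exact this), Nat.card_Icc]
    omega
  obtain ⟨-, h2⟩ := h1 f hf ha μ hμ (fun _ => 1) S (by
    intro s hs
    rw [hS, mem_image] at hs
    obtain ⟨d, hd, rfl⟩ := hs
    exact (mem_Icc.1 hd).1) (by
    intro s hs s' hs' hne
    rw [hS, mem_image] at hs hs'
    obtain ⟨d, hd, rfl⟩ := hs
    obtain ⟨d', hd', rfl⟩ := hs'
    intro h
    apply hne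
    have h3 : (t : ℤ) * d' = t * d := by
      have : ((d : ℤ) + t) * (d' : ℤ) = ((d' : ℤ) + t) * (d : ℤ) := h
      linear_combination this
    have h4 : (d' : ℤ) = d := mul_left_cancel₀ (by exact_mod_cast (by omega : t ≠ 0)) h3
    have h5 : d' = d := by exact_mod_cast h4
    rw [h5])
  have h3 := h2 H (by omega)
  have h4 : (Pool.Agent.Results.MP_4a7640_nt.DilatedTuples.exc μ (fun _ : Fin 1 => 1) ε S).filter
      (fun s => s.1 ≤ H) = S := by
    apply filter_true_of_mem ?_ |>.trans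
    · unfold Pool.Agent.Results.MP_4a7640_nt.DilatedTuples.exc
      apply filter_true_of_mem
      intro s hs'
      rw [hS, mem_image] at hs'
      obtain ⟨d, hd, rfl⟩ := hs'
      have h5 : ∫ x : Sq, (x ((d : ℤ) + t) : ℝ) * ∏ j : Fin 1, (x (1 * (d : ℤ)) : ℝ) ∂μ =
          ∫ x : Sq, (x (t : ℤ) : ℝ) * (x 0 : ℝ) ∂μ := by
        rw [← pair_shift hμ d t 0]
        congr 1
        funext x
        simp only [univ_unique, prod_const, card_singleton, pow_one, one_mul, zero_add]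
        rw [add_comm (t : ℤ)]
      show ε ≤ |∫ x : Sq, (x ((d : ℤ) + t) : ℝ) * ∏ j : Fin 1, (x (1 * (d : ℤ)) : ℝ) ∂μ|
      rw [h5]
      exact min_le_left _ _
    · intro s hs'
      unfold Pool.Agent.Results.MP_4a7640_nt.DilatedTuples.exc at hs'
      have h6 := (mem_filter.1 hs').1
      rw [hS, mem_image] at h6
      obtain ⟨d, hd, rfl⟩ := h6
      exact (mem_Icc.1 hd).2
  rw [h4, hcard] at h3
  have h5 : ε ≤ 1 / 2 := min_le_right _ _
  have h6 : (0:ℝ) < H := by rw [hH]; positivity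
  nlinarith

lemma pair_zero {f : ℕ → Val} (hf : IsMult f) (ha : Aperiodic f) {μ : Measure Sq} (hμ : IsFurstenbergSystem f μ)
    (a b : ℕ) (hab : a ≠ b) : ∫ x : Sq, (x (a : ℤ) : ℝ) * (x (b : ℤ) : ℝ) ∂μ = 0 := by
  rcases Nat.lt_or_gt_of_ne hab with h | h
  · have h1 := pair_shift hμ a (((b - a : ℕ) : ℤ)) 0
    rw [two_point hf ha hμ (b - a) (by omega)] at h1
    refine Eq.trans ?_ h1
    congr 1
    funext x
    rw [zero_add, mul_comm]
    congr 3
    omega
  · have h1 := pair_shift hμ b (((a - b : ℕ) : ℤ)) 0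
    rw [two_point hf ha hμ (a - b) (by omega)] at h1
    refine Eq.trans ?_ h1
    congr 1
    funext x
    rw [zero_add]
    congr 3
    omega

lemma norm_sum_sq {M : ℕ} (H : ℕ) (c : ℕ → EuclideanSpace ℂ (Fin M)) (r : ℕ → ℝ) :
    ‖∑ h ∈ range H, ((r h : ℝ) : ℂ) • c h‖ ^ 2 =
      ∑ h ∈ range H, ∑ h' ∈ range H, (inner ℂ (c h) (c h')).re * (r h * r h') := by
  have h1 : ((‖∑ h ∈ range H, ((r h : ℝ) : ℂ) • c h‖ ^ 2 : ℝ) : ℂ) =
      inner ℂ (∑ h ∈ range H, ((r h : ℝ) : ℂ) • c h) (∑ h ∈ range H, ((r h : ℝ) : ℂ) • c h) := by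
    rw [inner_self_eq_norm_sq_to_K]
    push_cast
    rfl
  have h2 := congrArg Complex.re h1
  rw [Complex.ofReal_re] at h2
  rw [h2, sum_inner, Complex.re_sum]
  refine sum_congr rfl fun h _ => ?_
  rw [inner_sum, Complex.re_sum]
  refine sum_congr rfl fun h' _ => ?_
  rw [inner_smul_left, inner_smul_right, Complex.conj_ofReal, ← mul_assoc, ← Complex.ofReal_mul,
    Complex.re_ofReal_mul]
  ring

/-- the mean square of sums with coefficients in a Hilbert space -/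
lemma mean_square {f : ℕ → Val} (hf : IsMult f) (ha : Aperiodic f) {μ : Measure Sq} (hμ : IsFurstenbergSystem f μ)
    {M : ℕ} (H : ℕ) (c : ℕ → EuclideanSpace ℂ (Fin M)) :
    Integrable (fun x : Sq => ‖∑ h ∈ range H, ((x h : ℝ) : ℂ) • c h‖ ^ 2) μ ∧
    ∫ x : Sq, ‖∑ h ∈ range H, ((x h : ℝ) : ℂ) • c h‖ ^ 2 ∂μ ≤ ∑ h ∈ range H, ‖c h‖ ^ 2 := by
  have hprob : IsProbabilityMeasure μ := hμ.1
  have hint : ∀ a b : ℤ, Integrable (fun x : Sq => (x a : ℝ) * (x b : ℝ)) μ := fun a b =>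
    Integrable.of_bound (pair_meas a b).aestronglyMeasurable 1
      (Filter.Eventually.of_forall fun x => by rw [Real.norm_eq_abs]; exact pair_le a b x)
  have e : (fun x : Sq => ‖∑ h ∈ range H, ((x h : ℝ) : ℂ) • c h‖ ^ 2) = fun x : Sq =>
      ∑ h ∈ range H, ∑ h' ∈ range H, (inner ℂ (c h) (c h')).re * ((x h : ℝ) * (x h' : ℝ)) := by
    funext x
    exact norm_sum_sq H c (fun h => (x h : ℝ))
  have hint2 : ∀ h ∈ range H, Integrable (fun x : Sq =>
      ∑ h' ∈ range H, (inner ℂ (c h) (c h')).re * ((x h : ℝ) * (x h' : ℝ))) μ := fun h _ =>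
    integrable_finsetSum _ fun h' _ => (hint _ _).const_mul _
  rw [e]
  refine ⟨integrable_finsetSum _ hint2, ?_⟩
  rw [integral_finsetSum _ hint2]
  refine sum_le_sum fun h hh => ?_
  rw [integral_finsetSum _ fun h' _ => (hint _ _).const_mul _]
  have h1 : ∀ h' ∈ range H, ∫ x : Sq, (inner ℂ (c h) (c h')).re * ((x h : ℝ) * (x h' : ℝ)) ∂μ =
      if h' = h then (inner ℂ (c h) (c h)).re * ∫ x : Sq, (x h : ℝ) * (x h : ℝ) ∂μ else 0 := by
    intro h' _
    rw [integral_const_mul]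
    by_cases hhh : h' = h
    · rw [if_pos hhh, hhh]
    · rw [if_neg hhh, pair_zero hf ha hμ h h' (fun e => hhh e.symm), mul_zero]
  rw [sum_congr rfl h1, sum_ite_eq' (range H) h, if_pos hh]
  have h2 : (inner ℂ (c h) (c h)).re = ‖c h‖ ^ 2 := by
    have := inner_self_eq_norm_sq (𝕜 := ℂ) (c h)
    simpa using this
  rw [h2]
  have h3 : ∫ x : Sq, (x h : ℝ) * (x h : ℝ) ∂μ ≤ 1 := by
    have h4 := integral_mono (hint h h) (integrable_const (1:ℝ)) (fun x => (le_abs_self _).trans (pair_le h h x))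
    simpa using h4
  calc ‖c h‖ ^ 2 * ∫ x : Sq, (x h : ℝ) * (x h : ℝ) ∂μ ≤ ‖c h‖ ^ 2 * 1 := mul_le_mul_of_nonneg_left h3 (by positivity)
    _ = _ := mul_one _

lemma vol_lt (K : Set UnitAddCircle) (κ : ℝ) (h : (volume K).toReal < κ) : volume K < ENNReal.ofReal κ := by
  rw [ENNReal.lt_ofReal_iff_toReal_lt (measure_ne_top _ _)]
  exact h

/-- part one -/
theorem part1 (K : Set UnitAddCircle) (hK : IsClosed K) (ε : ℝ) (hε : 0 < ε) :
    ∃ H₀ : ℕ, ∀ H : ℕ, H₀ ≤ H → ∀ f : ℕ → Val, IsMult f → Aperiodic f → ∀ μ : Measure Sq,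
      IsFurstenbergSystem f μ → ∫ x, freqSup K H x ^ 2 ∂μ ≤ ((volume K).toReal + ε) * H ^ 2 := by
  obtain ⟨L₀, -, h⟩ := dominate K hK ((volume K).toReal + ε) (vol_lt K _ (by linarith))
  refine ⟨L₀, fun H hH f hf ha μ hμ => ?_⟩
  obtain ⟨M, c, hc1, hc2⟩ := h H hH
  obtain ⟨h1, h2⟩ := mean_square hf ha hμ H c
  refine le_trans (integral_mono_of_nonneg (Filter.Eventually.of_forall fun x => by positivity) h1
    (Filter.Eventually.of_forall fun x => ?_)) (h2.trans hc1)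
  have h3 : freqSup K H x ≤ ‖∑ h ∈ range H, ((x h : ℝ) : ℂ) • c h‖ :=
    Real.iSup_le (fun α => hc2 α α.2 _) (norm_nonneg _)
  have h4 : 0 ≤ freqSup K H x := Real.iSup_nonneg fun _ => norm_nonneg _
  exact pow_le_pow_left₀ h4 h3 2

lemma amgm (A B r : ℝ) (hA : 0 ≤ A) (hB : 0 ≤ B) (hr : 0 ≤ r) (h : ∀ t : ℝ, 0 < t → 2 * A ≤ t * r + B / t) :
    A ^ 2 ≤ B * r := by
  rcases hA.eq_or_lt with hA0 | hA0
  · rw [← hA0, zero_pow two_ne_zero]
    exact mul_nonneg hB hr
  rcases hr.eq_or_lt with hr0 | hr0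
  · exfalso
    have h1 := h ((B + 1) / A) (by positivity)
    rw [← hr0, mul_zero, zero_add, div_div_eq_mul_div] at h1
    have h2 : B * A / (B + 1) ≤ A := by
      rw [div_le_iff₀ (by positivity)]
      nlinarith
    linarith
  · have h1 := h (A / r) (by positivity)
    have e1 : A / r * r = A := by field_simp
    have e2 : B / (A / r) = B * r / A := by field_simp
    rw [e1, e2] at h1
    have h2 : A ≤ B * r / A := by linarith
    rw [le_div_iff₀ hA0] at h2
    nlinarith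

lemma rel_iter {f : ℕ → Val} {μ : Measure Sq} (hμ : IsFurstenbergSystem f μ) {φ : Sq → UnitAddCircle} {u : Sq → ℂ}
    (hu : RelativeEigenfunction μ φ u) (n : ℕ) :
    ∀ᵐ x ∂μ, φ (shift (n : ℤ) x) = φ x ∧ u (shift (n : ℤ) x) = fourier (n : ℤ) (φ x) * u x := by
  induction n with
  | zero =>
    refine Filter.Eventually.of_forall fun x => ?_
    have e : shift ((0 : ℕ) : ℤ) x = x := by
      funext k
      simp [shift]
    rw [e]
    simp
  | succ n ih =>
    have h1 := (mp_shift' hμ n).quasiMeasurePreserving.ae hu.2.2.2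
    filter_upwards [ih, h1] with x hx hx1
    have e : shift ((n + 1 : ℕ) : ℤ) x = shift 1 (shift (n : ℤ) x) := by
      funext k
      unfold shift
      congr 1
      push_cast
      ring
    rw [e, hx1.1, hx1.2, hx.1, hx.2]
    refine ⟨rfl, ?_⟩
    push_cast
    rw [fourier_add]
    ring

/-- closed sets of frequencies -/
lemma closed_part {f : ℕ → Val} (hf : IsMult f) (ha : Aperiodic f) {μ : Measure Sq} (hμ : IsFurstenbergSystem f μ)
    {φ : Sq → UnitAddCircle} {u : Sq → ℂ} (hu : RelativeEigenfunction μ φ u) (K : Set UnitAddCircle)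
    (hK : IsClosed K) (κ : ℝ) (hκ : (volume K).toReal < κ) :
    ‖∫ x in φ ⁻¹' K, ((x 0 : ℝ) : ℂ) * u x ∂μ‖ ^ 2 ≤ κ * ∫ x in φ ⁻¹' K, ‖u x‖ ^ 2 ∂μ := by
  have hprob : IsProbabilityMeasure μ := hμ.1
  have hφ := hu.1
  have hum := hu.2.1
  have hu1 := hu.2.2.1
  have hκ0 : 0 ≤ κ := le_trans ENNReal.toReal_nonneg hκ.le
  have hA : MeasurableSet (φ ⁻¹' K) := hφ hK.measurableSet
  obtain ⟨L, hL1, hdom⟩ := dominate K hK κ (vol_lt K κ hκ)
  obtain ⟨M, c, hc1, hc2⟩ := hdom L le_rfl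
  obtain ⟨h1, h2⟩ := mean_square hf ha hμ L c
  have hL0 : (0:ℝ) < L := by exact_mod_cast hL1
  set I : ℂ := ∫ x in φ ⁻¹' K, ((x 0 : ℝ) : ℂ) * u x ∂μ with hI
  set r : ℝ := ∫ x in φ ⁻¹' K, ‖u x‖ ^ 2 ∂μ with hr
  set G : Sq → ℝ := fun x => ‖∑ h ∈ range L, ((x h : ℝ) : ℂ) • c h‖ with hG
  have hcm : ∀ a : ℤ, Measurable fun x : Sq => ((x a : ℝ) : ℂ) := fun a =>
    Complex.measurable_ofReal.comp (coord_meas a)
  have hfm : ∀ n : ℤ, Measurable fun x : Sq => (fourier n (φ x) : ℂ) := fun n =>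
    (fourier n).continuous.measurable.comp hφ
  -- the integrals with shifts
  have hshift : ∀ h : ℕ, ∫ x in φ ⁻¹' K, ((x h : ℝ) : ℂ) * fourier (h : ℤ) (φ x) * u x ∂μ = I := by
    intro h
    rw [hI, ← integral_indicator hA, ← integral_indicator hA,
      ← int_shift hμ h (F := (φ ⁻¹' K).indicator fun x => ((x 0 : ℝ) : ℂ) * u x)
        (((hcm 0).mul hum).indicator hA)]
    apply integral_congr_ae
    filter_upwards [rel_iter hμ hu h] with x hx
    by_cases hxK : φ x ∈ K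
    · rw [Set.indicator_of_mem (show x ∈ φ ⁻¹' K from hxK),
        Set.indicator_of_mem (show shift (h : ℤ) x ∈ φ ⁻¹' K by rw [Set.mem_preimage, hx.1]; exact hxK), hx.2]
      have e : (shift (h : ℤ) x) 0 = x h := by
        unfold shift
        rw [zero_add]
      rw [e]
      ring
    · rw [Set.indicator_of_notMem (show x ∉ φ ⁻¹' K from hxK),
        Set.indicator_of_notMem (show shift (h : ℤ) x ∉ φ ⁻¹' K by rw [Set.mem_preimage, hx.1]; exact hxK)]
  have hbd : ∀ (h : ℕ) (x : Sq), ‖((x h : ℝ) : ℂ) * fourier (h : ℤ) (φ x) * u x‖ ≤ 1 := by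
    intro h x
    rw [norm_mul, norm_mul, Pool.Agent.R378.NF.norm_fourier, mul_one, Complex.norm_real, Real.norm_eq_abs]
    exact mul_le_one₀ (val_le _) (norm_nonneg _) (hu1 x)
  have hint : ∀ h : ℕ, Integrable (fun x : Sq => ((x h : ℝ) : ℂ) * fourier (h : ℤ) (φ x) * u x)
      (μ.restrict (φ ⁻¹' K)) := fun h =>
    Integrable.of_bound (((hcm h).mul (hfm h)).mul hum).aestronglyMeasurable 1
      (Filter.Eventually.of_forall fun x => hbd h x)
  have hsum : (L : ℂ) * I = ∫ x in φ ⁻¹' K, (∑ h ∈ range L, ((x h : ℝ) : ℂ) * fourier (h : ℤ) (φ x)) * u x ∂μ := by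
    have e1 : (fun x : Sq => (∑ h ∈ range L, ((x h : ℝ) : ℂ) * fourier (h : ℤ) (φ x)) * u x) =
        fun x : Sq => ∑ h ∈ range L, ((x h : ℝ) : ℂ) * fourier (h : ℤ) (φ x) * u x := by
      funext x
      rw [sum_mul]
    rw [e1, integral_finsetSum _ fun h _ => hint h, sum_congr rfl fun h _ => hshift h, sum_const, card_range,
      nsmul_eq_mul]
  have hu2 : Integrable (fun x => ‖u x‖ ^ 2) (μ.restrict (φ ⁻¹' K)) :=
    Integrable.of_bound (hum.norm.pow_const 2).aestronglyMeasurable 1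
      (Filter.Eventually.of_forall fun x => by
        rw [Real.norm_eq_abs, abs_of_nonneg (by positivity)]
        exact pow_le_one₀ (norm_nonneg _) (hu1 x))
  have hkey : (L * ‖I‖) ^ 2 ≤ (κ * L ^ 2) * r := by
    apply amgm _ _ _ (by positivity) (by positivity)
      (setIntegral_nonneg hA fun x _ => by positivity)
    intro t ht
    have h3 : L * ‖I‖ = ‖(L : ℂ) * I‖ := by rw [norm_mul, Complex.norm_natCast]
    rw [h3, hsum]
    have h4 : ‖∫ x in φ ⁻¹' K, (∑ h ∈ range L, ((x h : ℝ) : ℂ) * fourier (h : ℤ) (φ x)) * u x ∂μ‖ ≤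
        ∫ x in φ ⁻¹' K, (t * ‖u x‖ ^ 2 + G x ^ 2 / t) / 2 ∂μ := by
      apply norm_integral_le_of_norm_le
      · exact ((hu2.const_mul t).add (h1.restrict.div_const t)).div_const 2
      · filter_upwards [ae_restrict_mem hA] with x hx
        rw [norm_mul]
        have h5 : ‖∑ h ∈ range L, ((x h : ℝ) : ℂ) * (fourier (h : ℤ) (φ x) : ℂ)‖ ≤ G x := hc2 (φ x) hx _
        have h6 : ‖∑ h ∈ range L, ((x h : ℝ) : ℂ) * (fourier (h : ℤ) (φ x) : ℂ)‖ * ‖u x‖ ≤ G x * ‖u x‖ :=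
          mul_le_mul_of_nonneg_right h5 (norm_nonneg _)
        refine h6.trans ?_
        have h7 : 0 ≤ (t * ‖u x‖ - G x) ^ 2 / t := by positivity
        have h8 : (t * ‖u x‖ - G x) ^ 2 / t = t * ‖u x‖ ^ 2 - 2 * (G x * ‖u x‖) + G x ^ 2 / t := by
          field_simp
          ring
        linarith
    have h5 : ∫ x in φ ⁻¹' K, (t * ‖u x‖ ^ 2 + G x ^ 2 / t) / 2 ∂μ =
        (t * r + (∫ x in φ ⁻¹' K, G x ^ 2 ∂μ) / t) / 2 := by
      rw [integral_div, integral_add (hu2.const_mul t) (h1.restrict.div_const t), integral_const_mul, integral_div]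
    have h6 : ∫ x in φ ⁻¹' K, G x ^ 2 ∂μ ≤ κ * L ^ 2 :=
      (setIntegral_le_integral h1 (Filter.Eventually.of_forall fun x => by positivity)).trans (h2.trans hc1)
    have h7 : (∫ x in φ ⁻¹' K, G x ^ 2 ∂μ) / t ≤ κ * L ^ 2 / t := div_le_div_of_nonneg_right h6 ht.le
    rw [h5] at h4
    linarith
  have h3 : L ^ 2 * ‖I‖ ^ 2 ≤ L ^ 2 * (κ * r) := by
    calc (L:ℝ) ^ 2 * ‖I‖ ^ 2 = (L * ‖I‖) ^ 2 := by ring
      _ ≤ (κ * L ^ 2) * r := hkey
      _ = _ := by ring
  exact le_of_mul_le_mul_left h3 (by positivity)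

/-- part two -/
theorem part2 {f : ℕ → Val} (hf : IsMult f) (ha : Aperiodic f) {μ : Measure Sq} (hμ : IsFurstenbergSystem f μ)
    (φ : Sq → UnitAddCircle) (u : Sq → ℂ) (hu : RelativeEigenfunction μ φ u) (B : Set UnitAddCircle)
    (hB : MeasurableSet B) :
    ‖∫ x in φ ⁻¹' B, ((x 0 : ℝ) : ℂ) * u x ∂μ‖ ^ 2 ≤ (volume B).toReal * ∫ x in φ ⁻¹' B, ‖u x‖ ^ 2 ∂μ := by
  have hprob : IsProbabilityMeasure μ := hμ.1
  have hφ := hu.1
  have hum := hu.2.1
  have hu1 := hu.2.2.1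
  have hmap : IsProbabilityMeasure (Measure.map φ μ) := Measure.isProbabilityMeasure_map hφ.aemeasurable
  set b : ℝ := (volume B).toReal with hb
  set r : ℝ := ∫ x in φ ⁻¹' B, ‖u x‖ ^ 2 ∂μ with hr
  have hcm : Measurable fun x : Sq => ((x 0 : ℝ) : ℂ) := Complex.measurable_ofReal.comp (coord_meas 0)
  have hbd : ∀ x : Sq, ‖((x 0 : ℝ) : ℂ) * u x‖ ≤ 1 := by
    intro x
    rw [norm_mul, Complex.norm_real, Real.norm_eq_abs]
    exact mul_le_one₀ (val_le _) (norm_nonneg _) (hu1 x)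
  have hint : Integrable (fun x : Sq => ((x 0 : ℝ) : ℂ) * u x) μ :=
    Integrable.of_bound (hcm.mul hum).aestronglyMeasurable 1 (Filter.Eventually.of_forall hbd)
  have hu2 : Integrable (fun x => ‖u x‖ ^ 2) μ :=
    Integrable.of_bound (hum.norm.pow_const 2).aestronglyMeasurable 1
      (Filter.Eventually.of_forall fun x => by
        rw [Real.norm_eq_abs, abs_of_nonneg (by positivity)]
        exact pow_le_one₀ (norm_nonneg _) (hu1 x))
  have key : ∀ η : ℝ, 0 < η → ‖∫ x in φ ⁻¹' B, ((x 0 : ℝ) : ℂ) * u x ∂μ‖ ≤ Real.sqrt ((b + η) * r) + η := by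
    intro η hη
    obtain ⟨K, hKB, hK, hd⟩ := hB.exists_isClosed_sdiff_lt (μ := Measure.map φ μ) (measure_ne_top _ _)
      (ε := ENNReal.ofReal η) (by simpa using hη)
    have hKm := hK.measurableSet
    have h1 : (volume K).toReal < b + η := by
      have : (volume K).toReal ≤ b := ENNReal.toReal_mono (measure_ne_top _ _) (measure_mono hKB)
      linarith
    have h2 := closed_part hf ha hμ hu K hK (b + η) h1
    have h3 : ∫ x in φ ⁻¹' K, ‖u x‖ ^ 2 ∂μ ≤ r :=
      setIntegral_mono_set hu2.integrableOn (Filter.Eventually.of_forall fun x => by positivity)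
        (Filter.Eventually.of_forall (Set.preimage_mono hKB))
    have hbη : 0 ≤ b + η := by
      have : 0 ≤ b := ENNReal.toReal_nonneg
      linarith
    have h4 : ‖∫ x in φ ⁻¹' K, ((x 0 : ℝ) : ℂ) * u x ∂μ‖ ≤ Real.sqrt ((b + η) * r) := by
      apply Real.le_sqrt_of_sq_le
      exact h2.trans (mul_le_mul_of_nonneg_left h3 hbη)
    have h5 : ∫ x in φ ⁻¹' B, ((x 0 : ℝ) : ℂ) * u x ∂μ = ∫ x in φ ⁻¹' K, ((x 0 : ℝ) : ℂ) * u x ∂μ +
        ∫ x in φ ⁻¹' (B \ K), ((x 0 : ℝ) : ℂ) * u x ∂μ := by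
      have e : φ ⁻¹' B = φ ⁻¹' K ∪ φ ⁻¹' (B \ K) := by
        rw [← Set.preimage_union, Set.union_sdiff_cancel hKB]
      rw [e]
      apply setIntegral_union _ (hφ (hB.diff hKm)) hint.integrableOn hint.integrableOn
      exact Disjoint.preimage φ Set.disjoint_sdiff_right
    have h6 : ‖∫ x in φ ⁻¹' (B \ K), ((x 0 : ℝ) : ℂ) * u x ∂μ‖ ≤ η := by
      have h7 := norm_setIntegral_le_of_norm_le_const (μ := μ) (s := φ ⁻¹' (B \ K))
        (f := fun x : Sq => ((x 0 : ℝ) : ℂ) * u x) (C := 1) (measure_lt_top _ _) (fun x _ => hbd x)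
      rw [one_mul] at h7
      refine h7.trans ?_
      rw [Measure.map_apply hφ (hB.diff hKm)] at hd
      unfold Measure.real
      exact ENNReal.toReal_le_of_le_ofReal hη.le hd.le
    rw [h5]
    exact (norm_add_le _ _).trans (add_le_add h4 h6)
  have hlim : Tendsto (fun n : ℕ => Real.sqrt ((b + 1 / ((n : ℝ) + 1)) * r) + 1 / ((n : ℝ) + 1)) atTop
      (𝓝 (Real.sqrt ((b + 0) * r) + 0)) := by
    have h1 : Tendsto (fun n : ℕ => 1 / ((n : ℝ) + 1)) atTop (𝓝 0) := tendsto_one_div_add_atTop_nhds_zero_nat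
    exact ((Real.continuous_sqrt.tendsto _).comp ((h1.const_add b).mul_const r)).add h1
  have h1 : ‖∫ x in φ ⁻¹' B, ((x 0 : ℝ) : ℂ) * u x ∂μ‖ ≤ Real.sqrt ((b + 0) * r) + 0 :=
    ge_of_tendsto' hlim fun n => key _ (by positivity)
  rw [add_zero, add_zero] at h1
  have hr0 : 0 ≤ r := setIntegral_nonneg (hφ hB) fun x _ => by positivity
  have hb0 : 0 ≤ b := ENNReal.toReal_nonneg
  calc ‖∫ x in φ ⁻¹' B, ((x 0 : ℝ) : ℂ) * u x ∂μ‖ ^ 2 ≤ Real.sqrt (b * r) ^ 2 :=
        pow_le_pow_left₀ (norm_nonneg _) h1 2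
    _ = b * r := Real.sq_sqrt (by positivity)

/-- **Frequencies of Furstenberg systems.** (1) Let `K` be a closed subset of the circle and `ε > 0`. For all
sufficiently large `H`, the bound depending only on `K` and `ε`,
`∫ sup_{α ∈ K} |(1/H) ∑_{0 ≤ h < H} x(h) e(hα)|² dμ ≤ |K| + ε` for every Furstenberg system `μ` of every aperiodic
multiplicative function with values `1` and `-1`. (2) For every relative eigenfunction `u` with the eigenvalue
`e(φ(x))` at `x`, and every Borel subset `B` of the circle,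
`|∫_{φ ∈ B} x(0) u dμ|² ≤ |B| ∫_{φ ∈ B} |u|² dμ`. -/
theorem result :
    (∀ K : Set UnitAddCircle, IsClosed K → ∀ ε : ℝ, 0 < ε →
      ∃ H₀ : ℕ, ∀ H : ℕ, H₀ ≤ H → ∀ f : ℕ → Val, IsMult f → Aperiodic f → ∀ μ : Measure Sq,
        IsFurstenbergSystem f μ → ∫ x, freqSup K H x ^ 2 ∂μ ≤ ((volume K).toReal + ε) * H ^ 2) ∧
    (∀ f : ℕ → Val, IsMult f → Aperiodic f → ∀ μ : Measure Sq, IsFurstenbergSystem f μ →
      ∀ (φ : Sq → UnitAddCircle) (u : Sq → ℂ), RelativeEigenfunction μ φ u →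
      ∀ B : Set UnitAddCircle, MeasurableSet B →
        ‖∫ x in φ ⁻¹' B, ((x 0 : ℝ) : ℂ) * u x ∂μ‖ ^ 2 ≤
          (volume B).toReal * ∫ x in φ ⁻¹' B, ‖u x‖ ^ 2 ∂μ) :=
  ⟨part1, fun _ hf ha _ hμ φ u hu B hB => part2 hf ha hμ φ u hu B hB⟩

end Pool.Agent.Results.MP_4a7640_nt.AbsolutelyContinuousFrequencies
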