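import Pool.Agent.R509.PP.Abs2
import Pool.Agent.Results.MP_4a7640_nt.DisplacedCubes

/-! Furstenberg systems of aperiodic multiplicative functions with values `1` and `-1`: the correlation of the
zeroth coordinate with relative phase polynomials of all degrees (in particular with relative eigenfunctions), and
with functions of maps to tori which are polynomial along the orbits. -/

set_option autoImplicit false

open Finset MeasureTheory Filter Topology

namespace Pool.Agent.Results.MP_4a7640_nt.PhasePolynomials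

open Pool.Agent.Results.MP_4a7640_nt.DisplacedCubes (Val shift seq IsFurstenbergSystem IsMult Aperiodic)

/-- the space of two-sided sequences with values `-1`, `0`, `1` -/
abbrev Sq : Type := Pool.Agent.Results.MP_4a7640_nt.DisplacedCubes.X

/-- The map `φ` to the torus `ℝ^m/ℤ^m` is polynomial along the orbits: for almost every `x` there are real
polynomials `P_1, ..., P_m`, of any degrees, with `φ(T^n x) = (P_1(n), ..., P_m(n))` modulo one for all `n ≥ 0`. -/
def PolynomialOrbits (μ : Measure Sq) {m : ℕ} (φ : Sq → Fin m → UnitAddCircle) : Prop :=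
  ∀ᵐ x ∂μ, ∃ P : Fin m → Polynomial ℝ, ∀ n : ℕ,
    φ (shift (n : ℤ) x) = fun i => (((P i).eval (n : ℝ) : ℝ) : UnitAddCircle)

/-- `u` is a relative phase polynomial with invariant modulus: for almost every `x` there are a number `c ≥ 0` and a
real polynomial `P` with `u(T^n x) = c e(P(n))` for all `n ≥ 0`. -/
def PhasePolynomial (μ : Measure Sq) (u : Sq → ℂ) : Prop :=
  ∀ᵐ x ∂μ, ∃ (c : ℝ) (P : Polynomial ℝ), 0 ≤ c ∧ ∀ n : ℕ,
    u (shift (n : ℤ) x) = c * Complex.exp (2 * Real.pi * Complex.I * ((P.eval (n : ℝ) : ℝ) : ℂ))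

/-- The deviation of `F` is at most `A`: for each integer matrix `B`, each point `x` and each `c` with `|c| = 1`
there is a real number `t` for which the mean over the torus of `|Re(c F(x + B y)) - t|` is at most `A`. -/
def Deviation {m : ℕ} (F : C(Fin m → UnitAddCircle, ℂ)) (A : ℝ) : Prop :=
  ∀ (B : Fin m → Fin m → ℤ) (x : Fin m → UnitAddCircle) (c : ℂ), ‖c‖ = 1 → ∃ t : ℝ,
    ∫ y : Fin m → UnitAddCircle, |(c * F (fun i => x i + ∑ j, B i j • y j)).re - t| ≤ A

lemma shift_iter (n : ℕ) (x : Sq) : (shift 1)^[n] x = shift (n : ℤ) x := by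
  induction n with
  | zero =>
    funext k
    simp [shift]
  | succ n ih =>
    rw [Function.iterate_succ_apply', ih]
    funext k
    unfold shift
    congr 1
    push_cast
    ring

lemma shift_cont (n : ℤ) : Continuous (shift n) := by
  unfold shift
  exact continuous_pi fun k => continuous_apply (k + n)

/-- Furstenberg systems are invariant under the shift -/
lemma mp_shift {f : ℕ → Val} {μ : Measure Sq} (hμ : IsFurstenbergSystem f μ) : MeasurePreserving (shift 1) μ μ := by
  obtain ⟨hprob, N, hN, hlim⟩ := hμ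
  refine ⟨(shift_cont 1).measurable, ?_⟩
  have : IsProbabilityMeasure (Measure.map (shift 1) μ) := Measure.isProbabilityMeasure_map (shift_cont 1).measurable.aemeasurable
  apply ext_of_forall_integral_eq_of_IsFiniteMeasure
  intro φ
  rw [integral_map (shift_cont 1).measurable.aemeasurable φ.continuous.aestronglyMeasurable]
  set C : ℝ := ‖φ‖ + 1 with hC
  have hC0 : 0 < C := by positivity
  set ψ : Sq → ℝ := fun x => φ x / C with hψ
  have hψc : Continuous ψ := φ.continuous.div_const C
  have hψ1 : ∀ x, |ψ x| ≤ 1 := by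
    intro x
    rw [hψ]
    simp only
    rw [abs_div, abs_of_pos hC0, div_le_one hC0]
    have := φ.norm_coe_le_norm x
    rw [Real.norm_eq_abs] at this
    linarith
  have h1 := Pool.Agent.Results.MP_4a7640_nt.DisplacedCubes.mean_int hN hlim ψ hψc hψ1
  have h2 := Pool.Agent.Results.MP_4a7640_nt.DisplacedCubes.mean_int hN hlim (fun x => ψ (shift 1 x)) (hψc.comp (shift_cont 1))
    (fun x => hψ1 _)
  have hb : Pool.Agent.Y956.CB.BC (fun n : ℕ => ((ψ (shift (n : ℤ) (seq f)) : ℝ) : ℂ)) :=
    ⟨1, fun n => by rw [Complex.norm_real, Real.norm_eq_abs]; exact hψ1 _⟩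
  have h3 := Pool.Agent.Y956.CM.mc_shift (Pool.Agent.Y956.CB.eeLM (Pool.Agent.Y956.CM.lmLM (Pool.Agent.Y956.CM.usq N)
      (Pool.Agent.Y956.CM.usq_le hN))) hb 1
  have h4 : (fun n : ℕ => ((ψ (shift 1 (shift (n : ℤ) (seq f))) : ℝ) : ℂ)) =
      fun n : ℕ => ((ψ (shift ((n + 1 : ℕ) : ℤ) (seq f)) : ℝ) : ℂ) := by
    funext n
    have h5 : shift 1 (shift (n : ℤ) (seq f)) = shift ((n + 1 : ℕ) : ℤ) (seq f) := by
      funext k
      unfold shift
      congr 1
      push_cast
      ring
    rw [h5]
  rw [h4] at h2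
  have h6 : ((∫ x, ψ (shift 1 x) ∂μ : ℝ) : ℂ) = ((∫ x, ψ x ∂μ : ℝ) : ℂ) := by
    rw [← h1, ← h2]
    exact h3
  have h7 : ∫ x, ψ (shift 1 x) ∂μ = ∫ x, ψ x ∂μ := by exact_mod_cast h6
  simp only [hψ] at h7
  rw [integral_div, integral_div] at h7
  field_simp at h7
  exact h7

/-- the zeroth coordinate has no atoms in its spectrum -/
lemma no_atoms {f : ℕ → Val} (hf : IsMult f) (ha : Aperiodic f) {μ : Measure Sq} (hμ : IsFurstenbergSystem f μ) :
    Tendsto (fun H : ℕ => (1 / (H : ℝ)) * ∑ h ∈ range H, |∫ x : Sq, (x 0 : ℝ) * (((shift 1)^[h + 1] x) 0 : ℝ) ∂μ|) atTop (𝓝 0) := by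
  have h1 := Pool.Agent.Results.MP_4a7640_nt.DisplacedCubes.result f hf ha μ hμ 1 le_rfl univ univ 1 0 (by norm_num)
  refine h1.congr fun H => ?_
  rw [pow_one]
  congr 1
  rw [Finset.sum_range, ← Fintype.sum_equiv (Equiv.funUnique (Fin 1) (Fin H)) _ _ (fun h => rfl)]
  apply sum_congr rfl
  intro h _
  congr 2
  funext x
  unfold Pool.Agent.Results.MP_4a7640_nt.DisplacedCubes.cube
  have h2 : (univ : Finset (Finset (Fin 1))).erase univ = {∅} := by decide
  rw [h2, prod_singleton, sum_empty, shift_iter]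
  unfold shift
  simp only [add_zero, univ_unique, sum_singleton, zero_add]
  have h3 : (1 : ℤ) + ((h default : ℕ) : ℤ) = (((Equiv.funUnique (Fin 1) (Fin H)) h : Fin H) + 1 : ℕ) := by
    rw [Equiv.funUnique_apply]
    push_cast
    ring
  rw [h3]

/-- **Relative phase polynomials in Furstenberg systems.** Let `μ` be a Furstenberg system of an aperiodic
multiplicative function with values `1` and `-1`. (1) Let `φ` be a measurable map to a torus which is polynomial
along the orbits, and let `F` be continuous on the torus with deviation at most `A`. Then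
`|∫_E x(0) F(φ(x)) dμ| ≤ A μ(E)` for every invariant set `E`. (2) For every measurable relative phase polynomial
`u` with `|u| ≤ 1`, `|∫ x(0) u dμ| ≤ (2/π) ∫ |u| dμ`. -/
theorem result (f : ℕ → Val) (hf : IsMult f) (ha : Aperiodic f) (μ : Measure Sq) (hμ : IsFurstenbergSystem f μ) :
    (∀ (m : ℕ) (φ : Sq → Fin m → UnitAddCircle), Measurable φ → PolynomialOrbits μ φ →
      ∀ (F : C(Fin m → UnitAddCircle, ℂ)) (A : ℝ), Deviation F A →
      ∀ E : Set Sq, MeasurableSet E → (shift 1) ⁻¹' E = E → ‖∫ x in E, ((x 0 : ℝ) : ℂ) * F (φ x) ∂μ‖ ≤ A * μ.real E) ∧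
    (∀ u : Sq → ℂ, Measurable u → (∀ x, ‖u x‖ ≤ 1) → PhasePolynomial μ u →
      ‖∫ x, ((x 0 : ℝ) : ℂ) * u x ∂μ‖ ≤ 2 / Real.pi * ∫ x, ‖u x‖ ∂μ) := by
  have hprob : IsProbabilityMeasure μ := hμ.1
  have hmp := mp_shift hμ
  have hna := no_atoms hf ha hμ
  have hg : Measurable fun x : Sq => (x 0 : ℝ) := measurable_subtype_coe.comp (measurable_pi_apply 0)
  have hg1 : ∀ x : Sq, |(x 0 : ℝ)| ≤ 1 := fun x => Pool.Agent.Results.MP_4a7640_nt.DisplacedCubes.val_le _
  constructor
  · intro m φ hφ hP F A hA E hE hinv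
    have hinv' : ∀ (n : ℕ) (x : Sq), (shift 1)^[n] x ∈ E ↔ x ∈ E := by
      intro n
      induction n with
      | zero => intro x; rfl
      | succ n ih =>
        intro x
        rw [Function.iterate_succ_apply, ih]
        exact Set.ext_iff.1 hinv x
    have h1 := Pool.Agent.R509.PP.abs_main μ (shift 1) hmp (fun x => (x 0 : ℝ)) hg hg1 hna (E.indicator fun _ => 1)
      (measurable_const.indicator hE) (fun x => Set.indicator_nonneg (fun _ _ => zero_le_one) x)
      (fun x => Set.indicator_le_self' (fun _ _ => zero_le_one) x)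
      (Filter.Eventually.of_forall fun x n => by
        by_cases hx : x ∈ E
        · rw [Set.indicator_of_mem hx, Set.indicator_of_mem ((hinv' n x).2 hx)]
        · rw [Set.indicator_of_notMem hx, Set.indicator_of_notMem (fun h => hx ((hinv' n x).1 h))])
      m φ hφ (by
        filter_upwards [hP] with x hx
        obtain ⟨P, hP'⟩ := hx
        refine ⟨P, fun n => ?_⟩
        rw [shift_iter, hP' n]
        rfl) F A hA
    rw [integral_indicator_const _ hE, smul_eq_mul, mul_one] at h1
    refine le_trans (le_of_eq ?_) h1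
    rw [← integral_indicator hE]
    congr 1
    apply integral_congr_ae
    filter_upwards with x
    by_cases hx : x ∈ E
    · rw [Set.indicator_of_mem hx, Set.indicator_of_mem hx]
      simp
    · rw [Set.indicator_of_notMem hx, Set.indicator_of_notMem hx]
      simp
  · intro u hu hu1 hP
    exact Pool.Agent.R509.PP.abs_phase μ (shift 1) hmp (fun x => (x 0 : ℝ)) hg hg1 hna u hu hu1 (by
      filter_upwards [hP] with x hx
      obtain ⟨c, P, hc, hP'⟩ := hx
      refine ⟨c, P, hc, fun n => ?_⟩
      rw [shift_iter, hP' n])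

end Pool.Agent.Results.MP_4a7640_nt.PhasePolynomials
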