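import Pool.Agent.R509.FS.Gen
import Pool.Agent.Results.MP_4a7640_nt.PhasePolynomials

/-!
# Local autocorrelations in the Furstenberg systems of aperiodic multiplicative functions

Let `μ` be a Furstenberg system of an aperiodic multiplicative function with values `1` and `-1`, and let
`S_(H,a)(x)` be the mean of `x(b) x(b + a)` over `0 ≤ b < H` (for `H → ∞` it tends to the correlation of `x(0)`
and `x(a)` in the ergodic component of `x`). In a Bernoulli system, as in the question, it tends to zero for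
`a ≥ 1`. We prove that on average over the lags `1 ≤ a ≤ H` the distribution of `S_(H,a)` on every invariant set is
dominated by the uniform law on `[-1, 1]`, in the sense of the even moments and of the moments of `(1 + S)/2`.
In particular the averages over all prisms `b_i, b_i + a`, `1 ≤ i ≤ k`, of the correlations of order `2 k` are
at most `1 / (k + 1)`; for `k = 2` these are the parallelograms: the fourth power of the second Host-Kra
seminorm of `x(0)` is at most `1/3`.
-/

set_option autoImplicit false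

open Finset MeasureTheory Filter Topology

namespace Pool.Agent.Results.MP_4a7640_nt.LocalAutocorrelations

open Pool.Agent.Results.MP_4a7640_nt.DisplacedCubes (Val shift seq IsFurstenbergSystem IsMult Aperiodic)
open Pool.Agent.Results.MP_4a7640_nt.PhasePolynomials (Sq shift_iter shift_cont mp_shift no_atoms)

/-- the local autocorrelation: the mean of `x(b) x(b + a)` over `0 ≤ b < H` -/
noncomputable def S (H a : ℕ) (x : Sq) : ℝ := (∑ b ∈ range H, (x (b : ℤ) : ℝ) * (x ((b : ℤ) + a) : ℝ)) / H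

/-- the zeroth coordinate is almost surely not zero -/
lemma ae_ne {f : ℕ → Val} (hf : IsMult f) {μ : Measure Sq} (hμ : IsFurstenbergSystem f μ) :
    ∀ᵐ x ∂μ, (x 0 : ℝ) = 1 ∨ (x 0 : ℝ) = -1 := by
  obtain ⟨hprob, N, hN, hlim⟩ := hμ
  have hc : Continuous fun x : Sq => ((x 0 : ℝ)) ^ 2 := (continuous_subtype_val.comp (continuous_apply 0)).pow 2
  have h1 := hlim (fun _ => 1) continuous_const
  have h2 := hlim _ hc
  have hv : ∀ z : Val, (z : ℝ) ≠ 0 → (z : ℝ) ^ 2 = 1 := by
    intro z hz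
    have h := z.2
    simp only [Set.mem_insert_iff, Set.mem_singleton_iff] at h
    rcases h with h | h | h
    · rw [h]; norm_num
    · exact absurd h hz
    · rw [h]; norm_num
  have h3 : (fun j => (1 / Real.log (N j : ℝ)) * ∑ n ∈ Icc 1 (N j), (1 / (n : ℝ)) *
      ((shift (n : ℤ) (seq f) 0 : Val) : ℝ) ^ 2) = fun j => (1 / Real.log (N j : ℝ)) * ∑ n ∈ Icc 1 (N j), (1 / (n : ℝ)) * 1 := by
    funext j
    congr 1
    apply sum_congr rfl
    intro n hn
    have hn1 : 1 ≤ n := (mem_Icc.1 hn).1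
    congr 1
    unfold shift
    rw [zero_add, Pool.Agent.Results.MP_4a7640_nt.DisplacedCubes.seq_nat f n hn1]
    exact hv _ (hf.1 n hn1)
  rw [h3] at h2
  have h4 := tendsto_nhds_unique h1 h2
  rw [integral_const, smul_eq_mul, mul_one, probReal_univ] at h4
  have hb : ∀ x : Sq, (x 0 : ℝ) ^ 2 ≤ 1 := fun x => by
    have := Pool.Agent.Results.MP_4a7640_nt.DisplacedCubes.val_le (x 0)
    rw [← sq_abs]
    exact pow_le_one₀ (abs_nonneg _) this
  have hint : Integrable (fun x : Sq => (x 0 : ℝ) ^ 2) μ := Integrable.of_bound hc.measurable.aestronglyMeasurable 1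
    (Eventually.of_forall fun x => by
      rw [Real.norm_eq_abs, abs_of_nonneg (sq_nonneg _)]
      exact hb x)
  have h5 : ∫ x, (1 - (x 0 : ℝ) ^ 2) ∂μ = 0 := by
    rw [integral_sub (integrable_const _) hint, ← h4, integral_const, smul_eq_mul, mul_one, probReal_univ, sub_self]
  have h6 := (integral_eq_zero_iff_of_nonneg (fun x => sub_nonneg.2 (hb x)) ((integrable_const _).sub hint)).1 h5
  filter_upwards [h6] with x hx
  have hx' : 1 - (x 0 : ℝ) ^ 2 = 0 := hx
  have : ((x 0 : ℝ) - 1) * ((x 0 : ℝ) + 1) = 0 := by linarith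
  rcases mul_eq_zero.1 this with h | h
  · left; linarith
  · right; linarith

/-- a version of the zeroth coordinate with values `1` and `-1` -/
noncomputable def g (x : Sq) : ℝ := if (x 0 : ℝ) = -1 then -1 else 1

lemma g_pm (x : Sq) : g x = 1 ∨ g x = -1 := by
  unfold g
  split_ifs
  · right; rfl
  · left; rfl

lemma g_meas : Measurable g := by
  have hc : Continuous fun x : Sq => ((x 0 : ℝ)) := continuous_subtype_val.comp (continuous_apply 0)
  exact Measurable.ite (measurableSet_eq_fun hc.measurable measurable_const) measurable_const measurable_const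

lemma g_eq {x : Sq} (h : (x 0 : ℝ) = 1 ∨ (x 0 : ℝ) = -1) : g x = (x 0 : ℝ) := by
  unfold g
  rcases h with h | h
  · rw [h, if_neg (by norm_num)]
  · rw [h, if_pos rfl]

lemma coord (n : ℕ) (x : Sq) : (((shift 1)^[n] x) 0 : Val) = x (n : ℤ) := by
  rw [shift_iter]
  unfold shift
  rw [zero_add]

/-- almost surely all values of `g` along the orbit are the coordinates -/
lemma ae_all {f : ℕ → Val} (hf : IsMult f) {μ : Measure Sq} (hμ : IsFurstenbergSystem f μ) :
    ∀ᵐ x ∂μ, ∀ n : ℕ, g ((shift 1)^[n] x) = (x (n : ℤ) : ℝ) := by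
  rw [ae_all_iff]
  intro n
  have h1 := ((mp_shift hμ).iterate n).quasiMeasurePreserving.ae (ae_ne hf hμ)
  filter_upwards [h1] with x hx
  rw [g_eq hx, coord]

lemma main {f : ℕ → Val} (hf : IsMult f) (ha : Aperiodic f) {μ : Measure Sq} (hμ : IsFurstenbergSystem f μ)
    {c : ℕ → ℝ} {k : ℕ} {I L : ℝ} (h : Pool.Agent.R509.CE.Good c k I L) (ε : ℝ) (hε : 0 < ε) :
    ∃ C : ℕ, 1 ≤ C ∧ ∀ H : ℕ, C ≤ H → ∀ E : Set Sq, MeasurableSet E → (shift 1) ⁻¹' E = E →
      (∑ a ∈ Icc 1 H, ∫ x in E, Pool.Agent.R509.CE.ps c k (S H a x) ∂μ) / H ≤ I * μ.real E + ε := by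
  have hprob : IsProbabilityMeasure μ := hμ.1
  have hmp := mp_shift hμ
  have hall := ae_all hf hμ
  have hna := no_atoms hf ha hμ
  have hna' : Tendsto (fun H : ℕ => (1 / (H : ℝ)) * ∑ h ∈ range H, |∫ x : Sq, g x * g ((shift 1)^[h + 1] x) ∂μ|)
      atTop (𝓝 0) := by
    refine hna.congr fun H => ?_
    congr 1
    apply sum_congr rfl
    intro h _
    congr 1
    apply integral_congr_ae
    filter_upwards [hall] with x hx
    have h0 := hx 0
    have h1 := hx (h + 1)
    rw [Function.iterate_zero, id_eq] at h0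
    rw [h0, h1, coord]
    norm_num
  obtain ⟨C, hC1, hC⟩ := Pool.Agent.R509.FS.erg μ (shift 1) hmp g g_meas g_pm hna' h ε hε
  refine ⟨C, hC1, fun H hH E hE hinv => ?_⟩
  have hH0 : (0 : ℝ) < H := by exact_mod_cast (by omega : 0 < H)
  have h1 := hC H hH E hE hinv
  have hcc : ∀ n : ℤ, Continuous fun x : Sq => ((x n : ℝ)) := fun n => continuous_subtype_val.comp (continuous_apply n)
  have hSc : ∀ a : ℕ, Continuous (S H a) := fun a => by
    unfold S
    exact (continuous_finsetSum _ fun b _ => (hcc _).mul (hcc _)).div_const _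
  have hpc : ∀ a : ℕ, Continuous fun x => Pool.Agent.R509.CE.ps c k (S H a x) := fun a => by
    unfold Pool.Agent.R509.CE.ps
    exact continuous_finsetSum _ fun i _ => ((hSc a).pow i).const_smul (c i) |>.congr fun x => by simp
  have hSb : ∀ (a : ℕ) (x : Sq), |S H a x| ≤ 1 := fun a x => by
    unfold S
    refine Pool.Agent.R509.CD.avg_abs _ _ (fun b => ?_) H (card_range H).le
    rw [abs_mul]
    exact mul_le_one₀ (Pool.Agent.Results.MP_4a7640_nt.DisplacedCubes.val_le _) (abs_nonneg _)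
      (Pool.Agent.Results.MP_4a7640_nt.DisplacedCubes.val_le _)
  have hI : ∀ a : ℕ, Integrable (fun x => Pool.Agent.R509.CE.ps c k (S H a x)) (μ.restrict E) := fun a =>
    Integrable.of_bound (hpc a).measurable.aestronglyMeasurable 1 (Eventually.of_forall fun x => by
      rw [Real.norm_eq_abs, abs_of_nonneg (Pool.Agent.R509.CE.ps_nonneg h _ (hSb a x))]
      exact Pool.Agent.R509.CE.ps_le h _ (hSb a x))
  rw [div_le_iff₀ hH0]
  refine le_trans (le_of_eq ?_) h1
  rw [← integral_finsetSum _ fun a _ => hI a]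
  apply integral_congr_ae
  have h2 : ∀ᵐ x ∂(μ.restrict E), ∀ n : ℕ, g ((shift 1)^[n] x) = (x (n : ℤ) : ℝ) := ae_restrict_of_ae hall
  filter_upwards [h2] with x hx
  apply sum_congr rfl
  intro a _
  congr 1
  unfold S Pool.Agent.R509.CD.S
  congr 1
  apply sum_congr rfl
  intro b _
  simp only [zero_add]
  rw [hx, hx]
  push_cast
  rfl

/-- **Local autocorrelations in Furstenberg systems.** Let `μ` be a Furstenberg system of an aperiodic
multiplicative function with values `1` and `-1`.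
(1) For every even `k` and `ε > 0` there is `C` such that for all `H ≥ C` and all invariant sets `E` the mean over
the lags `1 ≤ a ≤ H` of `∫_E S_(H,a)^k dμ` is at most `μ(E)/(k+1) + ε`.
(2) For every `j` and `ε > 0` there is `C` such that for all `H ≥ C` and all invariant sets `E` the mean over the lags
`1 ≤ a ≤ H` of `∫_E ((1 + S_(H,a))/2)^j dμ` is at most `μ(E)/(j+1) + ε`.
(3) For every even `k` and `ε > 0` there is `C` such that for all `H ≥ C` the mean over `1 ≤ a ≤ H` and
`0 ≤ b_1, ..., b_k < H` of the correlation `∫ ∏_i x(b_i) x(b_i + a) dμ` of order `2 k` is between `0` and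
`1/(k+1) + ε`. -/
theorem result (f : ℕ → Val) (hf : IsMult f) (ha : Aperiodic f) (μ : Measure Sq) (hμ : IsFurstenbergSystem f μ) :
    (∀ k : ℕ, Even k → ∀ ε : ℝ, 0 < ε → ∃ C : ℕ, ∀ H : ℕ, C ≤ H → ∀ E : Set Sq, MeasurableSet E →
      (shift 1) ⁻¹' E = E → (∑ a ∈ Icc 1 H, ∫ x in E, S H a x ^ k ∂μ) / H ≤ 1 / (k + 1) * μ.real E + ε) ∧
    (∀ (j : ℕ) (ε : ℝ), 0 < ε → ∃ C : ℕ, ∀ H : ℕ, C ≤ H → ∀ E : Set Sq, MeasurableSet E →
      (shift 1) ⁻¹' E = E →
      (∑ a ∈ Icc 1 H, ∫ x in E, ((1 + S H a x) / 2) ^ j ∂μ) / H ≤ 1 / (j + 1) * μ.real E + ε) ∧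
    (∀ k : ℕ, Even k → ∀ ε : ℝ, 0 < ε → ∃ C : ℕ, ∀ H : ℕ, C ≤ H →
      0 ≤ (∑ a ∈ Icc 1 H, ∑ b : Fin k → Fin H,
        ∫ x : Sq, ∏ i, ((x ((b i : ℕ) : ℤ) : ℝ) * (x (((b i : ℕ) : ℤ) + a) : ℝ)) ∂μ) / (H : ℝ) ^ (k + 1) ∧
      (∑ a ∈ Icc 1 H, ∑ b : Fin k → Fin H,
        ∫ x : Sq, ∏ i, ((x ((b i : ℕ) : ℤ) : ℝ) * (x (((b i : ℕ) : ℤ) + a) : ℝ)) ∂μ) / (H : ℝ) ^ (k + 1) ≤
        1 / (k + 1) + ε) := by
  have hprob : IsProbabilityMeasure μ := hμ.1
  have p1 : ∀ k : ℕ, Even k → ∀ ε : ℝ, 0 < ε → ∃ C : ℕ, ∀ H : ℕ, C ≤ H → ∀ E : Set Sq, MeasurableSet E →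
      (shift 1) ⁻¹' E = E → (∑ a ∈ Icc 1 H, ∫ x in E, S H a x ^ k ∂μ) / H ≤ 1 / (k + 1) * μ.real E + ε := by
    intro k hk ε hε
    obtain ⟨C, _, hC⟩ := main hf ha hμ (Pool.Agent.R509.FS.good_pow k hk) ε hε
    refine ⟨C, fun H hH E hE hinv => ?_⟩
    have := hC H hH E hE hinv
    simpa only [Pool.Agent.R509.FS.ps_sg] using this
  refine ⟨p1, ?_, ?_⟩
  · intro j ε hε
    obtain ⟨C, _, hC⟩ := main hf ha hμ (Pool.Agent.R509.CE.good_half j) ε hε
    refine ⟨C, fun H hH E hE hinv => ?_⟩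
    have := hC H hH E hE hinv
    simpa only [Pool.Agent.R509.CE.ps_half] using this
  · intro k hk ε hε
    obtain ⟨C, hC⟩ := p1 k hk ε hε
    refine ⟨C + 1, fun H hH => ?_⟩
    have hH1 : 1 ≤ H := by omega
    have hH0 : (0 : ℝ) < H := by exact_mod_cast hH1
    have h1 := hC H (by omega) Set.univ MeasurableSet.univ Set.preimage_univ
    have hcc : ∀ n : ℤ, Continuous fun x : Sq => ((x n : ℝ)) := fun n =>
      continuous_subtype_val.comp (continuous_apply n)
    have key : (∑ a ∈ Icc 1 H, ∑ b : Fin k → Fin H,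
        ∫ x : Sq, ∏ i, ((x ((b i : ℕ) : ℤ) : ℝ) * (x (((b i : ℕ) : ℤ) + a) : ℝ)) ∂μ) / (H : ℝ) ^ (k + 1) =
        (∑ a ∈ Icc 1 H, ∫ x in Set.univ, S H a x ^ k ∂μ) / H := by
      rw [pow_succ, ← div_div]
      congr 1
      rw [sum_div]
      apply sum_congr rfl
      intro a _
      rw [Measure.restrict_univ, ← integral_finsetSum, ← integral_div]
      · congr 1
        funext x
        rw [← Fintype.sum_pow (fun b : Fin H => (x ((b : ℕ) : ℤ) : ℝ) * (x (((b : ℕ) : ℤ) + a) : ℝ)) k, ← div_pow]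
        congr 1
        unfold S
        rw [Finset.sum_range]
      · intro b _
        refine Integrable.of_bound (continuous_finsetProd _ fun i _ =>
          (hcc _).mul (hcc _)).measurable.aestronglyMeasurable 1 (Eventually.of_forall fun x => ?_)
        rw [Real.norm_eq_abs, abs_prod]
        refine prod_le_one (fun _ _ => abs_nonneg _) fun i _ => ?_
        rw [abs_mul]
        exact mul_le_one₀ (Pool.Agent.Results.MP_4a7640_nt.DisplacedCubes.val_le _) (abs_nonneg _)
          (Pool.Agent.Results.MP_4a7640_nt.DisplacedCubes.val_le _)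
    rw [key]
    constructor
    · apply div_nonneg _ hH0.le
      exact sum_nonneg fun a _ => integral_nonneg fun x => hk.pow_nonneg _
    · rw [probReal_univ, mul_one] at h1
      exact h1

end Pool.Agent.Results.MP_4a7640_nt.LocalAutocorrelations
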