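import Pool.Agent.R512.G.Fur

/-!
# Furstenberg systems of aperiodic multiplicative functions with values `1` and `-1`: all correlations
of `k` distinct coordinates are at most `1 - c k` in absolute value
-/

set_option autoImplicit false

namespace Pool.Agent.Results.MP_4a7640_nt.UniformGap

open MeasureTheory Filter Topology Finset

/-- the numbers `-1`, `0`, `1` -/
abbrev Val : Type := ({-1, 0, 1} : Set ℝ)

/-- the space of two-sided sequences -/
abbrev X : Type := ℤ → Val

/-- the `n`-th power of the shift -/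
def shift (n : ℤ) (x : X) : X := fun k => x (k + n)

/-- the sequence of the values `f n`, `n ≥ 1`, extended by zero -/
noncomputable def seq (f : ℕ → Val) : X := fun n => if 1 ≤ n then f n.toNat else ⟨0, by simp⟩

/-- `μ` is a Furstenberg system of `f`: a weak-star limit, along some sequence `N j → ∞`, of the
logarithmic averages of the point masses at the shifts of the sequence of values of `f` -/
def IsFurstenbergSystem (f : ℕ → Val) (μ : Measure X) : Prop :=
  IsProbabilityMeasure μ ∧ ∃ N : ℕ → ℕ, Tendsto N atTop atTop ∧ ∀ φ : X → ℝ, Continuous φ →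
    Tendsto (fun j => (1 / Real.log (N j : ℝ)) * ∑ n ∈ Icc 1 (N j), (1 / (n : ℝ)) * φ (shift (n : ℤ) (seq f)))
      atTop (𝓝 (∫ x, φ x ∂μ))

/-- multiplicative functions with values `1` and `-1` -/
def IsMult (f : ℕ → Val) : Prop := (∀ n : ℕ, 1 ≤ n → (f n : ℝ) ≠ 0) ∧
  ∀ m n : ℕ, 1 ≤ m → 1 ≤ n → Nat.Coprime m n → (f (m * n) : ℝ) = f m * f n

/-- the distance to every Dirichlet character is infinite -/
def Aperiodic (f : ℕ → Val) : Prop := ∀ Q : ℕ, 0 < Q → ∀ χ : DirichletCharacter ℂ Q,
  ¬ Summable (fun p : ℕ => if p.Prime then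
    (1 - (((f p : ℝ) : ℂ) * (starRingEnd ℂ) (χ (p : ZMod Q))).re) / (p : ℝ) else 0)

lemma val_le (z : Val) : |(z : ℝ)| ≤ 1 := by
  have h := z.2
  simp only [Set.mem_insert_iff, Set.mem_singleton_iff] at h
  rcases h with h | h | h <;> rw [h] <;> simp

lemma seq_nat (f : ℕ → Val) (n : ℕ) (hn : 1 ≤ n) : seq f n = f n := by
  unfold seq
  rw [if_pos (by exact_mod_cast hn), Int.toNat_natCast]

lemma adm_f {f : ℕ → Val} (h : Aperiodic f) : Pool.Agent.R512.G.Adm (fun n => (((f n : ℝ)) : ℂ)) := by
  left
  refine ⟨fun n => (f n : ℝ), fun n => rfl, fun q χ hq _ hs => ?_⟩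
  apply h q hq χ
  have h1 : Summable (fun p : Nat.Primes => (fun p : ℕ => if p.Prime then
    (1 - (((f p : ℝ) : ℂ) * (starRingEnd ℂ) (χ (p : ZMod q))).re) / (p : ℝ) else 0) (p : ℕ)) := by
    refine hs.congr fun p => ?_
    simp only
    rw [if_pos p.2, Complex.re_ofReal_mul, Complex.conj_re]
  have h2 := (Function.Injective.summable_iff (g := fun p : Nat.Primes => (p : ℕ))
    (f := fun p : ℕ => if p.Prime then
    (1 - (((f p : ℝ) : ℂ) * (starRingEnd ℂ) (χ (p : ZMod q))).re) / (p : ℝ) else 0)
    Subtype.val_injective (fun p hp => by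
      rw [if_neg]
      intro hp'
      exact hp ⟨⟨p, hp'⟩, rfl⟩)).1
  exact h2 h1

/-- In every Furstenberg system of every aperiodic multiplicative function with values `1` and `-1` the
correlations of `k` distinct coordinates are at most `1 - c k` in absolute value, where `c k > 0` depends
only on `k`. -/
theorem result : ∃ c : ℕ → ℝ, (∀ k, 0 < c k) ∧
    ∀ f : ℕ → Val, IsMult f → Aperiodic f → ∀ μ : Measure X, IsFurstenbergSystem f μ →
    ∀ (k : ℕ) (h : Fin (k + 1) → ℤ), Function.Injective h →
    |∫ x, ∏ i, (x (h i) : ℝ) ∂μ| ≤ 1 - c k := by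
  obtain ⟨c, hc0, -, hmain⟩ := Pool.Agent.R512.G.fur_core
  refine ⟨fun k => c (k + 1), fun k => hc0 _, fun f hf ha μ hμ k h hh => ?_⟩
  obtain ⟨hprob, N, hN, hlim⟩ := hμ
  have h1 := hmain (k + 1) h hh (fun _ n => (((f n : ℝ)) : ℂ)) (fun _ z => (((seq f z : Val) : ℝ) : ℂ))
    (fun _ => ⟨fun n => by rw [Complex.norm_real, Real.norm_eq_abs]; exact val_le _, fun m n hm hn hc => by
      show (((f (m * n) : ℝ)) : ℂ) = (((f m : ℝ)) : ℂ) * (((f n : ℝ)) : ℂ)
      rw [hf.2 m n hm hn hc, Complex.ofReal_mul]⟩)
    (fun _ z => by rw [Complex.norm_real, Real.norm_eq_abs]; exact val_le _)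
    (fun _ n hn => by rw [seq_nat f n hn]) 0 (adm_f ha) N hN
    ((∫ x, ∏ i, (x (h i) : ℝ) ∂μ : ℝ) : ℂ) 1 (by
      have h2 := hlim (fun x => ∏ i, (x (h i) : ℝ)) (by fun_prop)
      have h3 := (Complex.continuous_ofReal.tendsto _).comp h2
      refine h3.congr fun s => ?_
      simp only [Function.comp_apply]
      push_cast
      congr 1
      apply sum_congr rfl
      intro n _
      unfold shift
      rw [one_div, mul_comm, div_eq_mul_inv]
      congr 1
      apply prod_congr rfl
      intro i _
      rw [add_comm (h i)]) (by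
      have h2 := hlim (fun x => 1) (by fun_prop)
      simp only [integral_const, probReal_univ, smul_eq_mul, mul_one] at h2
      have h3 := (Complex.continuous_ofReal.tendsto _).comp h2
      refine h3.congr fun s => ?_
      simp only [Function.comp_apply]
      push_cast
      congr 1
      apply sum_congr rfl
      intro n hn
      have hn1 := (mem_Icc.1 hn).1
      have h4 : |(f n : ℝ)| = 1 := by
        have h5 := (f n).2
        simp only [Set.mem_insert_iff, Set.mem_singleton_iff] at h5
        rcases h5 with h5 | h5 | h5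
        · rw [h5]; norm_num
        · exact absurd h5 (hf.1 n hn1)
        · rw [h5]; norm_num
      rw [seq_nat f n hn1, Complex.norm_real, Real.norm_eq_abs, h4]
      norm_num)
  rw [Complex.norm_real, Real.norm_eq_abs, mul_one] at h1
  exact h1

end Pool.Agent.Results.MP_4a7640_nt.UniformGap
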